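import Mathlib

/-!
# The rational Erdős–Szekeres game (normal play): `d = 3` and `d = 4`, every `a`
-/

set_option autoImplicit false

namespace Pool.Agent.KS6_98.ESG

/-- The list contains an increasing subsequence of length `a` or a decreasing one of length `d`. -/
def Ends (a d : ℕ) (s : List ℚ) : Prop :=
  ∃ t : List ℚ, t.Sublist s ∧
    ((t.length = a ∧ t.Pairwise (fun x y => x < y)) ∨
     (t.length = d ∧ t.Pairwise (fun x y => y < x)))

/-- The first player has a winning strategy in the normal-play rational game. -/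
def FirstWins (a d : ℕ) : Prop :=
  ∃ S : Set (List ℚ), [] ∈ S ∧ ∀ s ∈ S, ∃ m : ℚ, m ∉ s ∧
    (Ends a d (s ++ [m]) ∨ (¬ Ends a d (s ++ [m]) ∧
      ∀ m' : ℚ, m' ∉ s ++ [m] →
        ¬ Ends a d (s ++ [m, m']) ∧ s ++ [m, m'] ∈ S))

/-- The second player has a winning strategy in the normal-play rational game. -/
def SecondWins (a d : ℕ) : Prop :=
  ∃ S : Set (List ℚ), [] ∈ S ∧ ∀ s ∈ S, ∀ m : ℚ, m ∉ s →
    ¬ Ends a d (s ++ [m]) ∧ ∃ m' : ℚ, m' ∉ s ++ [m] ∧
      (Ends a d (s ++ [m, m']) ∨ s ++ [m, m'] ∈ S)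

/-- longest increasing subsequence below `x`, of the reversed list -/
def inc : List ℚ → ℚ → ℕ
  | [], _ => 0
  | m :: r, x => if m < x then max (inc r x) (inc r m + 1) else inc r x

/-- longest decreasing subsequence above `x`, of the reversed list -/
def dec : List ℚ → ℚ → ℕ
  | [], _ => 0
  | m :: r, x => if x < m then max (dec r x) (dec r m + 1) else dec r x

theorem inc_spec (r : List ℚ) : ∀ (x : ℚ) (k : ℕ), k ≤ inc r x ↔
    ∃ t : List ℚ, t.Sublist r ∧ t.length = k ∧ t.Pairwise (fun u v => v < u) ∧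
      ∀ y ∈ t, y < x := by
  induction r with
  | nil =>
    intro x k
    simp only [inc, Nat.le_zero, List.sublist_nil]
    constructor
    · rintro rfl; exact ⟨[], rfl, rfl, List.Pairwise.nil, by simp⟩
    · rintro ⟨t, rfl, h, -⟩; simpa using h.symm
  | cons m r ih =>
    intro x k
    constructor
    · intro h
      have h' : k ≤ inc r x ∨ (m < x ∧ k ≤ inc r m + 1) := by
        simp only [inc] at h
        split_ifs at h with hm
        · rcases le_max_iff.1 h with h | h
          · exact Or.inl h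
          · exact Or.inr ⟨hm, h⟩
        · exact Or.inl h
      rcases h' with h' | ⟨hm, h'⟩
      · obtain ⟨t, h1, h2⟩ := (ih x k).1 h'
        exact ⟨t, h1.cons _, h2⟩
      · rcases k with _ | k
        · exact ⟨[], List.nil_sublist _, rfl, List.Pairwise.nil, by simp⟩
        · obtain ⟨t, h1, h2, h3, h4⟩ := (ih m k).1 (by omega)
          refine ⟨m :: t, h1.cons_cons _, by simp [h2], List.pairwise_cons.2 ⟨h4, h3⟩, ?_⟩
          intro y hy
          rcases List.mem_cons.1 hy with rfl | hy
          · exact hm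
          · exact (h4 y hy).trans hm
    · rintro ⟨t, h1, h2, h3, h4⟩
      simp only [inc]
      cases h1 with
      | cons _ h1 =>
        have := (ih x k).2 ⟨t, h1, h2, h3, h4⟩
        split_ifs
        · exact this.trans (le_max_left _ _)
        · exact this
      | cons_cons _ h1 =>
        rename_i t'
        rw [List.pairwise_cons] at h3
        have hm : m < x := h4 m (by simp)
        rw [if_pos hm]
        have := (ih m t'.length).2 ⟨t', h1, rfl, h3.2, h3.1⟩
        simp only [List.length_cons] at h2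
        exact le_max_of_le_right (by omega)

theorem dec_spec (r : List ℚ) : ∀ (x : ℚ) (k : ℕ), k ≤ dec r x ↔
    ∃ t : List ℚ, t.Sublist r ∧ t.length = k ∧ t.Pairwise (fun u v => u < v) ∧
      ∀ y ∈ t, x < y := by
  induction r with
  | nil =>
    intro x k
    simp only [dec, Nat.le_zero, List.sublist_nil]
    constructor
    · rintro rfl; exact ⟨[], rfl, rfl, List.Pairwise.nil, by simp⟩
    · rintro ⟨t, rfl, h, -⟩; simpa using h.symm
  | cons m r ih =>
    intro x k
    constructor
    · intro h
      have h' : k ≤ dec r x ∨ (x < m ∧ k ≤ dec r m + 1) := by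
        simp only [dec] at h
        split_ifs at h with hm
        · rcases le_max_iff.1 h with h | h
          · exact Or.inl h
          · exact Or.inr ⟨hm, h⟩
        · exact Or.inl h
      rcases h' with h' | ⟨hm, h'⟩
      · obtain ⟨t, h1, h2⟩ := (ih x k).1 h'
        exact ⟨t, h1.cons _, h2⟩
      · rcases k with _ | k
        · exact ⟨[], List.nil_sublist _, rfl, List.Pairwise.nil, by simp⟩
        · obtain ⟨t, h1, h2, h3, h4⟩ := (ih m k).1 (by omega)
          refine ⟨m :: t, h1.cons_cons _, by simp [h2], List.pairwise_cons.2 ⟨h4, h3⟩, ?_⟩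
          intro y hy
          rcases List.mem_cons.1 hy with rfl | hy
          · exact hm
          · exact hm.trans (h4 y hy)
    · rintro ⟨t, h1, h2, h3, h4⟩
      simp only [dec]
      cases h1 with
      | cons _ h1 =>
        have := (ih x k).2 ⟨t, h1, h2, h3, h4⟩
        split_ifs
        · exact this.trans (le_max_left _ _)
        · exact this
      | cons_cons _ h1 =>
        rename_i t'
        rw [List.pairwise_cons] at h3
        have hm : x < m := h4 m (by simp)
        rw [if_pos hm]
        have := (ih m t'.length).2 ⟨t', h1, rfl, h3.2, h3.1⟩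
        simp only [List.length_cons] at h2
        exact le_max_of_le_right (by omega)

theorem inc_mono (r : List ℚ) {x y : ℚ} (h : x ≤ y) : inc r x ≤ inc r y := by
  obtain ⟨t, h1, h2, h3, h4⟩ := (inc_spec r x _).1 le_rfl
  exact (inc_spec r y _).2 ⟨t, h1, h2, h3, fun z hz => (h4 z hz).trans_le h⟩

theorem dec_anti (r : List ℚ) {x y : ℚ} (h : x ≤ y) : dec r y ≤ dec r x := by
  obtain ⟨t, h1, h2, h3, h4⟩ := (dec_spec r y _).1 le_rfl
  exact (dec_spec r x _).2 ⟨t, h1, h2, h3, fun z hz => h.trans_lt (h4 z hz)⟩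

theorem ends_iff (a d : ℕ) (s : List ℚ) :
    Ends a d s ↔ (∃ x, a ≤ inc s.reverse x) ∨ (∃ x, d ≤ dec s.reverse x) := by
  constructor
  · rintro ⟨t, h1, ⟨h2, h3⟩ | ⟨h2, h3⟩⟩
    · left
      obtain ⟨x, hx⟩ := (t.toFinset : Set ℚ).toFinite.bddAbove
      refine ⟨x + 1, (inc_spec _ _ _).2 ⟨t.reverse, h1.reverse, by simp [h2], ?_, ?_⟩⟩
      · rw [List.pairwise_reverse]; exact h3
      · intro y hy
        have : y ≤ x := hx (by simpa using hy)
        linarith
    · right
      obtain ⟨x, hx⟩ := (t.toFinset : Set ℚ).toFinite.bddBelow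
      refine ⟨x - 1, (dec_spec _ _ _).2 ⟨t.reverse, h1.reverse, by simp [h2], ?_, ?_⟩⟩
      · rw [List.pairwise_reverse]; exact h3
      · intro y hy
        have : x ≤ y := hx (by simpa using hy)
        linarith
  · rintro (⟨x, hx⟩ | ⟨x, hx⟩)
    · obtain ⟨t, h1, h2, h3, -⟩ := (inc_spec _ _ _).1 hx
      refine ⟨t.reverse, ?_, Or.inl ⟨by simp [h2], ?_⟩⟩
      · simpa using h1.reverse
      · rw [List.pairwise_reverse]; exact h3
    · obtain ⟨t, h1, h2, h3, -⟩ := (dec_spec _ _ _).1 hx
      refine ⟨t.reverse, ?_, Or.inr ⟨by simp [h2], ?_⟩⟩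
      · simpa using h1.reverse
      · rw [List.pairwise_reverse]; exact h3

/-- The player to move can end the game at once. -/
def Thr (a d : ℕ) (r : List ℚ) : Prop := (∃ x, a ≤ inc r x + 1) ∨ (∃ x, d ≤ dec r x + 1)

/-- The game on the reversed list has ended. -/
def End' (a d : ℕ) (r : List ℚ) : Prop := (∃ x, a ≤ inc r x) ∨ (∃ x, d ≤ dec r x)

theorem fresh (r : List ℚ) {p q : ℚ} (h : p < q) : ∃ m, p < m ∧ m < q ∧ m ∉ r := by
  obtain ⟨m, hm, hm'⟩ := (Set.Ioo_infinite h).exists_notMem_finset r.toFinset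
  exact ⟨m, hm.1, hm.2, by simpa using hm'⟩

theorem thr_end {a d : ℕ} {r : List ℚ} (h : Thr a d r) : ∃ m, m ∉ r ∧ End' a d (m :: r) := by
  rcases h with ⟨x, hx⟩ | ⟨x, hx⟩
  · obtain ⟨m, h1, h2, h3⟩ := fresh r (show x < x + 1 by linarith)
    refine ⟨m, h3, Or.inl ⟨m + 1, ?_⟩⟩
    have := inc_mono r h1.le
    simp only [inc]
    rw [if_pos (by linarith)]
    exact le_max_of_le_right (by omega)
  · obtain ⟨m, h1, h2, h3⟩ := fresh r (show x - 1 < x by linarith)
    refine ⟨m, h3, Or.inr ⟨m - 1, ?_⟩⟩
    have := dec_anti r h2.le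
    simp only [dec]
    rw [if_pos (by linarith)]
    exact le_max_of_le_right (by omega)

theorem not_end_of_not_thr {a d : ℕ} {r : List ℚ} (h : ¬ Thr a d r) (m : ℚ) :
    ¬ End' a d (m :: r) := by
  rintro (⟨x, hx⟩ | ⟨x, hx⟩)
  · apply h; left
    simp only [inc] at hx
    split_ifs at hx
    · rcases le_max_iff.1 hx with h | h
      · exact ⟨x, by omega⟩
      · exact ⟨m, h⟩
    · exact ⟨x, by omega⟩
  · apply h; right
    simp only [dec] at hx
    split_ifs at hx
    · rcases le_max_iff.1 hx with h | h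
      · exact ⟨x, by omega⟩
      · exact ⟨m, h⟩
    · exact ⟨x, by omega⟩

/-- A family of positions that are lost for the player to move. -/
def Fam (a d : ℕ) (P : List ℚ → Prop) : Prop :=
  ∀ r, P r → ¬ Thr a d r ∧ ∀ m, m ∉ r → Thr a d (m :: r) ∨ ∃ m', m' ∉ m :: r ∧ P (m' :: m :: r)

theorem first_of_fam {a d : ℕ} {P : List ℚ → Prop} (hP : Fam a d P) (m₀ : ℚ) (h0 : P [m₀]) :
    FirstWins a d := by
  refine ⟨{s | (∃ m, m ∉ s ∧ P (m :: s.reverse)) ∨ (∃ m, m ∉ s ∧ End' a d (m :: s.reverse))},
    Or.inl ⟨m₀, by simp, by simpa using h0⟩, ?_⟩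
  rintro s (⟨m, hm, h⟩ | ⟨m, hm, h⟩)
  · refine ⟨m, hm, ?_⟩
    by_cases hE : Ends a d (s ++ [m])
    · exact Or.inl hE
    refine Or.inr ⟨hE, fun m' hm' => ?_⟩
    obtain ⟨h1, h2⟩ := hP _ h
    have e : (s ++ [m, m']).reverse = m' :: m :: s.reverse := by simp
    refine ⟨?_, ?_⟩
    · rw [ends_iff, e]
      exact not_end_of_not_thr h1 m'
    · have hm2 : m' ∉ m :: s.reverse := by
        intro h; apply hm'
        simp only [List.mem_append, List.mem_cons, List.mem_reverse, List.not_mem_nil,
          or_false] at h ⊢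
        tauto
      rcases h2 m' hm2 with h3 | ⟨m'', h3, h4⟩
      · right
        obtain ⟨m'', h4, h5⟩ := thr_end h3
        refine ⟨m'', ?_, by rw [e]; exact h5⟩
        intro h; apply h4
        simp only [List.mem_append, List.mem_cons, List.mem_reverse, List.not_mem_nil,
          or_false] at h ⊢
        tauto
      · left
        refine ⟨m'', ?_, by rw [e]; exact h4⟩
        intro h; apply h3
        simp only [List.mem_append, List.mem_cons, List.mem_reverse, List.not_mem_nil,
          or_false] at h ⊢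
        tauto
  · exact ⟨m, hm, Or.inl ((ends_iff _ _ _).2 (by simpa [End'] using h))⟩

theorem second_of_fam {a d : ℕ} {P : List ℚ → Prop} (hP : Fam a d P) (h0 : P []) :
    SecondWins a d := by
  refine ⟨{s | P s.reverse}, by simpa using h0, ?_⟩
  intro s hs m hm
  obtain ⟨h1, h2⟩ := hP _ hs
  have hmr : m ∉ s.reverse := by simpa using hm
  refine ⟨?_, ?_⟩
  · rw [ends_iff]
    simpa [End'] using not_end_of_not_thr h1 m
  · rcases h2 m hmr with h3 | ⟨m', h3, h4⟩
    · obtain ⟨m', h4, h5⟩ := thr_end h3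
      refine ⟨m', ?_, Or.inl ((ends_iff _ _ _).2 (by simpa [End'] using h5))⟩
      intro h; apply h4
      simp only [List.mem_append, List.mem_cons, List.mem_reverse, List.not_mem_nil,
        or_false] at h ⊢
      tauto
    · refine ⟨m', ?_, Or.inr (by simpa using h4)⟩
      intro h; apply h3
      simp only [List.mem_append, List.mem_cons, List.mem_reverse, List.not_mem_nil,
        or_false] at h ⊢
      tauto

/-! ### `d = 3` -/

/-- after increasing play of length `i` -/
def PA (i : ℕ) (r : List ℚ) : Prop :=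
  ∃ q, q ∈ r ∧ (∀ x, dec r x = if x < q then 1 else 0) ∧
    (∀ x, q < x → inc r x = i) ∧ (∀ x, inc r x ≤ i)

theorem PA_not_thr {a i : ℕ} (h : i + 2 ≤ a) {r : List ℚ} (hr : PA i r) : ¬ Thr a 3 r := by
  obtain ⟨q, hq, h1, h2, h3⟩ := hr
  rintro (⟨x, hx⟩ | ⟨x, hx⟩)
  · have := h3 x; omega
  · rw [h1 x] at hx; split_ifs at hx <;> omega

theorem PA_step {a i : ℕ} (h : i + 2 ≤ a) {r : List ℚ} (hr : PA i r) (m : ℚ) (hm : m ∉ r) :
    Thr a 3 (m :: r) ∨ (i + 3 ≤ a ∧ ∃ m', m' ∉ m :: r ∧ PA (i + 2) (m' :: m :: r)) := by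
  obtain ⟨q, hq, h1, h2, h3⟩ := hr
  have hmq : m ≠ q := by rintro rfl; exact hm hq
  rcases lt_or_gt_of_ne hmq with hlt | hgt
  · left; right
    refine ⟨m - 1, ?_⟩
    simp only [dec]
    rw [if_pos (by linarith), h1 m, if_pos hlt]
    have := le_max_right (dec r (m - 1)) (1 + 1)
    omega
  · by_cases ha : i + 3 ≤ a
    · right
      refine ⟨ha, ?_⟩
      obtain ⟨z, hz1, hz2, hz3⟩ := fresh (m :: r) (show m < m + 1 by linarith)
      refine ⟨z, hz3, z, by simp, ?_, ?_, ?_⟩
      · intro x
        simp only [dec, h1]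
        split_ifs <;> first | omega | (exfalso; linarith)
      · intro x hx
        simp only [inc]
        rw [h2 x (by linarith), h2 m hgt, h2 z (by linarith)]
        split_ifs <;> first | omega | (exfalso; linarith)
      · intro x
        simp only [inc]
        have a1 := h3 x
        have a2 := h3 m
        have a3 := h3 z
        split_ifs <;> omega
    · left; left
      refine ⟨m + 1, ?_⟩
      simp only [inc]
      rw [if_pos (by linarith), h2 m hgt]
      have := le_max_right (inc r (m + 1)) (i + 1)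
      omega

theorem fam3 (a : ℕ) : Fam a 3 (fun r => ∃ i, i + 2 ≤ a ∧ i % 2 = a % 2 ∧ PA i r) := by
  rintro r ⟨i, hi, hp, hr⟩
  refine ⟨PA_not_thr hi hr, fun m hm => ?_⟩
  rcases PA_step hi hr m hm with h | ⟨h, m', hm', h'⟩
  · exact Or.inl h
  · exact Or.inr ⟨m', hm', i + 2, by omega, by omega, h'⟩

theorem PA_one (m : ℚ) : PA 1 [m] := by
  refine ⟨m, by simp, ?_, ?_, ?_⟩
  · intro x; simp only [dec]; split_ifs <;> simp
  · intro x hx; simp only [inc]; rw [if_pos hx]; simp
  · intro x; simp only [inc]; split_ifs <;> simp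

theorem first3 {a : ℕ} (ha : 3 ≤ a) (ho : a % 2 = 1) : FirstWins a 3 :=
  first_of_fam (fam3 a) 0 ⟨1, by omega, by omega, PA_one 0⟩

theorem PA_two (m : ℚ) : PA 2 [m + 1, m] := by
  refine ⟨m + 1, by simp, ?_, ?_, ?_⟩
  · intro x; simp only [dec]
    split_ifs <;> first | omega | (exfalso; linarith)
  · intro x hx; simp only [inc]
    split_ifs <;> first | omega | (exfalso; linarith)
  · intro x; simp only [inc]
    split_ifs <;> omega

theorem fam3' {a : ℕ} (ha : 4 ≤ a) (he : a % 2 = 0) :
    Fam a 3 (fun r => r = [] ∨ ∃ i, i + 2 ≤ a ∧ i % 2 = a % 2 ∧ PA i r) := by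
  rintro r (rfl | hr)
  · refine ⟨?_, fun m _ => Or.inr ⟨m + 1, by simp, Or.inr ⟨2, by omega, by omega, PA_two m⟩⟩⟩
    rintro (⟨x, hx⟩ | ⟨x, hx⟩)
    · simp only [inc] at hx; omega
    · simp only [dec] at hx; omega
  · obtain ⟨h1, h2⟩ := fam3 a r hr
    refine ⟨h1, fun m hm => ?_⟩
    rcases h2 m hm with h | ⟨m', hm', h'⟩
    · exact Or.inl h
    · exact Or.inr ⟨m', hm', Or.inr h'⟩

theorem second3 {a : ℕ} (ha : 4 ≤ a) (he : a % 2 = 0) : SecondWins a 3 :=
  second_of_fam (fam3' ha he) (Or.inl rfl)

/-- Positions of the losing family do not belong to a winning strategy set of the mover. -/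
theorem not_mem {a : ℕ} {S : Set (List ℚ)} (hS : ∀ s ∈ S, ∃ m : ℚ, m ∉ s ∧
    (Ends a 3 (s ++ [m]) ∨ (¬ Ends a 3 (s ++ [m]) ∧
      ∀ m' : ℚ, m' ∉ s ++ [m] →
        ¬ Ends a 3 (s ++ [m, m']) ∧ s ++ [m, m'] ∈ S))) :
    ∀ n i : ℕ, a ≤ i + n → i + 2 ≤ a → i % 2 = a % 2 → ∀ s : List ℚ, PA i s.reverse → s ∉ S := by
  intro n
  induction n using Nat.strong_induction_on with
  | _ n ih =>
    intro i hn hi hp s hs hmem
    obtain ⟨m, hm, h⟩ := hS s hmem
    have hnt := PA_not_thr hi hs
    have hmr : m ∉ s.reverse := by simpa using hm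
    rcases h with h | ⟨-, h⟩
    · rw [ends_iff] at h
      apply not_end_of_not_thr hnt m
      simpa [End'] using h
    · rcases PA_step hi hs m hmr with h3 | ⟨h3, m', hm', h4⟩
      · obtain ⟨m', h4, h5⟩ := thr_end h3
        apply (h m' ?_).1
        · rw [ends_iff]; simpa [End'] using h5
        · intro h; apply h4
          simp only [List.mem_append, List.mem_cons, List.mem_reverse, List.not_mem_nil,
            or_false] at h ⊢
          tauto
      · refine ih (n - 2) (by omega) (i + 2) (by omega) (by omega) (by omega)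
          (s ++ [m, m']) (by simpa using h4) (h m' ?_).2
        intro h; apply hm'
        simp only [List.mem_append, List.mem_cons, List.mem_reverse, List.not_mem_nil,
          or_false] at h ⊢
        tauto

theorem not_first3 {a : ℕ} (ha : 4 ≤ a) (he : a % 2 = 0) : ¬ FirstWins a 3 := by
  rintro ⟨S, h0, hS⟩
  obtain ⟨m, hm, h⟩ := hS [] h0
  rcases h with ⟨t, ht, h⟩ | ⟨-, h⟩
  · have := ht.length_le
    simp at this
    omega
  · exact not_mem hS a 2 (by omega) (by omega) (by omega) [m, m + 1] (by simpa using PA_two m)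
      (by simpa using (h (m + 1) (by simp)).2)

/-! ### `d = 4` -/

def Q (i : ℕ) (r : List ℚ) : Prop :=
  ∃ p q, p ∈ r ∧ q ∈ r ∧ p < q ∧
    (∀ x, dec r x = if x < p then 2 else if x < q then 1 else 0) ∧
    (∀ x, p < x → inc r x = if q < x then i + 1 else i) ∧ (∀ x, inc r x ≤ i + 1)

def Dd (a : ℕ) (r : List ℚ) : Prop :=
  (∀ x, x ∉ r → a ≤ inc r x + 2 ∨ 2 ≤ dec r x) ∧ (∀ x, inc r x + 2 ≤ a) ∧ (∀ x, dec r x ≤ 2)

theorem dd_fam {a : ℕ} {r : List ℚ} (h : Dd a r) :
    ¬ Thr a 4 r ∧ ∀ m, m ∉ r → Thr a 4 (m :: r) := by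
  obtain ⟨h1, h2, h3⟩ := h
  refine ⟨?_, fun m hm => ?_⟩
  · rintro (⟨x, hx⟩ | ⟨x, hx⟩)
    · have := h2 x; omega
    · have := h3 x; omega
  · rcases h1 m hm with h | h
    · left
      refine ⟨m + 1, ?_⟩
      simp only [inc]
      rw [if_pos (by linarith)]
      have := le_max_right (inc r (m + 1)) (inc r m + 1)
      omega
    · right
      refine ⟨m - 1, ?_⟩
      simp only [dec]
      rw [if_pos (by linarith)]
      have := le_max_right (dec r (m - 1)) (dec r m + 1)
      omega

theorem Q_not_thr {a i : ℕ} (h : i + 4 ≤ a) {r : List ℚ} (hr : Q i r) : ¬ Thr a 4 r := by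
  obtain ⟨p, q, hp, hq, hpq, h1, h2, h3⟩ := hr
  rintro (⟨x, hx⟩ | ⟨x, hx⟩)
  · have := h3 x; omega
  · rw [h1 x] at hx; split_ifs at hx <;> omega

theorem Q_step {a i : ℕ} (h : i + 4 ≤ a) {r : List ℚ} (hr : Q i r) (m : ℚ) (hm : m ∉ r) :
    Thr a 4 (m :: r) ∨ ∃ m', m' ∉ m :: r ∧
      ((i + 5 ≤ a ∧ Q (i + 1) (m' :: m :: r)) ∨ Dd a (m' :: m :: r)) := by
  obtain ⟨p, q, hp, hq, hpq, h1, h2, h3⟩ := hr
  have hmp : m ≠ p := by rintro rfl; exact hm hp
  have hmq : m ≠ q := by rintro rfl; exact hm hq
  rcases lt_or_gt_of_ne hmp with hlt | hgt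
  · left; right
    refine ⟨m - 1, ?_⟩
    simp only [dec]
    rw [if_pos (by linarith), h1 m, if_pos hlt]
    have := le_max_right (dec r (m - 1)) (2 + 1)
    omega
  right
  rcases lt_or_gt_of_ne hmq with hlt' | hgt'
  · by_cases ha : i + 5 ≤ a
    · obtain ⟨z, hz1, hz2, hz3⟩ := fresh (m :: r) (show q < q + 1 by linarith)
      refine ⟨z, hz3, Or.inl ⟨ha, m, z, by simp, by simp, by linarith, ?_, ?_, ?_⟩⟩
      · intro x
        simp only [dec, h1]
        split_ifs <;> first | omega | (exfalso; linarith)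
      · intro x hx
        simp only [inc]
        rw [h2 x (by linarith), h2 m hgt, h2 z (by linarith)]
        split_ifs <;> first | omega | (exfalso; linarith)
      · intro x
        simp only [inc]
        have a1 := h3 x
        have a2 := h2 m hgt
        have a3 := h3 z
        rw [if_neg (by linarith)] at a2
        split_ifs <;> omega
    · obtain ⟨z, hz1, hz2, hz3⟩ := fresh (m :: r) hlt'
      have a2 := h2 m hgt
      rw [if_neg (by linarith)] at a2
      have a3 := h2 z (by linarith)
      rw [if_neg (by linarith)] at a3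
      refine ⟨z, hz3, Or.inr ⟨?_, ?_, ?_⟩⟩
      · intro x hx
        have hxz : x ≠ z := by rintro rfl; simp at hx
        rcases lt_or_gt_of_ne hxz with hx' | hx'
        · right
          simp only [dec, h1]
          split_ifs <;> first | omega | (exfalso; linarith)
        · left
          simp only [inc]
          split_ifs <;> first | omega | (exfalso; linarith)
      · intro x
        have a1 := h3 x
        simp only [inc]
        split_ifs <;> omega
      · intro x
        simp only [dec, h1]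
        split_ifs <;> first | omega | (exfalso; linarith)
  · by_cases ha : i + 5 ≤ a
    · obtain ⟨z, hz1, hz2, hz3⟩ := fresh (m :: r) hpq
      refine ⟨z, hz3, Or.inl ⟨ha, z, m, by simp, by simp, by linarith, ?_, ?_, ?_⟩⟩
      · intro x
        simp only [dec, h1]
        split_ifs <;> first | omega | (exfalso; linarith)
      · intro x hx
        simp only [inc]
        rw [h2 x (by linarith), h2 m (by linarith), h2 z (by linarith)]
        split_ifs <;> first | omega | (exfalso; linarith)
      · intro x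
        simp only [inc]
        have a1 := h3 x
        have a2 := h3 m
        have a3 := h2 z (by linarith)
        rw [if_neg (by linarith)] at a3
        split_ifs <;> first | omega | (exfalso; linarith)
    · obtain ⟨z, hz1, hz2, hz3⟩ := fresh (m :: r) hgt'
      have a2 := h2 m (by linarith)
      rw [if_pos (by linarith)] at a2
      have a3 := h2 z (by linarith)
      rw [if_pos (by linarith)] at a3
      refine ⟨z, hz3, Or.inr ⟨?_, ?_, ?_⟩⟩
      · intro x hx
        have hxz : x ≠ z := by rintro rfl; simp at hx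
        rcases lt_or_gt_of_ne hxz with hx' | hx'
        · right
          simp only [dec, h1]
          split_ifs <;> first | omega | (exfalso; linarith)
        · left
          simp only [inc]
          split_ifs <;> first | omega | (exfalso; linarith)
      · intro x
        have a1 := h3 x
        simp only [inc]
        split_ifs <;> first | omega | (exfalso; linarith)
      · intro x
        simp only [dec, h1]
        split_ifs <;> first | omega | (exfalso; linarith)

theorem one_step {a : ℕ} (ha : 4 ≤ a) (m₀ m : ℚ) (hm : m ∉ [m₀]) :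
    ∃ m', m' ∉ [m, m₀] ∧ ((5 ≤ a ∧ Q 1 [m', m, m₀]) ∨ Dd a [m', m, m₀]) := by
  have hne : m ≠ m₀ := by simpa using hm
  rcases lt_or_gt_of_ne hne with hlt | hgt
  · by_cases h5 : 5 ≤ a
    · refine ⟨m₀ + 1, ?_, Or.inl ⟨h5, m, m₀ + 1, by simp, by simp, by linarith, ?_, ?_, ?_⟩⟩
      · simp only [List.mem_cons, List.not_mem_nil, or_false, not_or]
        constructor <;> intro h <;> linarith
      · intro x; simp only [dec]
        split_ifs <;> first | omega | (exfalso; linarith)
      · intro x hx; simp only [inc]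
        split_ifs <;> first | omega | (exfalso; linarith)
      · intro x; simp only [inc]
        split_ifs <;> first | omega | (exfalso; linarith)
    · obtain ⟨z, hz1, hz2, hz3⟩ := fresh [m, m₀] hlt
      refine ⟨z, hz3, Or.inr ⟨?_, ?_, ?_⟩⟩
      · intro x hx
        have hxz : x ≠ z := by rintro rfl; simp at hx
        rcases lt_or_gt_of_ne hxz with hx' | hx'
        · right; simp only [dec]
          split_ifs <;> first | omega | (exfalso; linarith)
        · left; simp only [inc]
          split_ifs <;> first | omega | (exfalso; linarith)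
      · intro x; simp only [inc]
        split_ifs <;> first | omega | (exfalso; linarith)
      · intro x; simp only [dec]
        split_ifs <;> first | omega | (exfalso; linarith)
  · by_cases h5 : 5 ≤ a
    · refine ⟨m₀ - 1, ?_, Or.inl ⟨h5, m₀ - 1, m, by simp, by simp, by linarith, ?_, ?_, ?_⟩⟩
      · simp only [List.mem_cons, List.not_mem_nil, or_false, not_or]
        constructor <;> intro h <;> linarith
      · intro x; simp only [dec]
        split_ifs <;> first | omega | (exfalso; linarith)
      · intro x hx; simp only [inc]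
        split_ifs <;> first | omega | (exfalso; linarith)
      · intro x; simp only [inc]
        split_ifs <;> first | omega | (exfalso; linarith)
    · obtain ⟨z, hz1, hz2, hz3⟩ := fresh [m, m₀] hgt
      refine ⟨z, hz3, Or.inr ⟨?_, ?_, ?_⟩⟩
      · intro x hx
        have hxz : x ≠ z := by rintro rfl; simp at hx
        rcases lt_or_gt_of_ne hxz with hx' | hx'
        · right; simp only [dec]
          split_ifs <;> first | omega | (exfalso; linarith)
        · left; simp only [inc]
          split_ifs <;> first | omega | (exfalso; linarith)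
      · intro x; simp only [inc]
        split_ifs <;> first | omega | (exfalso; linarith)
      · intro x; simp only [dec]
        split_ifs <;> first | omega | (exfalso; linarith)

theorem fam4 {a : ℕ} (ha : 4 ≤ a) :
    Fam a 4 (fun r => (∃ m, r = [m]) ∨ (∃ i, i + 4 ≤ a ∧ Q i r) ∨ Dd a r) := by
  rintro r (⟨m₀, rfl⟩ | ⟨i, hi, hr⟩ | hr)
  · refine ⟨?_, fun m hm => ?_⟩
    · rintro (⟨x, hx⟩ | ⟨x, hx⟩)
      · simp only [inc] at hx; split_ifs at hx <;> omega
      · simp only [dec] at hx; split_ifs at hx <;> omega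
    · right
      obtain ⟨m', hm', h | h⟩ := one_step ha m₀ m hm
      · exact ⟨m', hm', Or.inr (Or.inl ⟨1, by omega, h.2⟩)⟩
      · exact ⟨m', hm', Or.inr (Or.inr h)⟩
  · refine ⟨Q_not_thr hi hr, fun m hm => ?_⟩
    rcases Q_step hi hr m hm with h | ⟨m', hm', h | h⟩
    · exact Or.inl h
    · exact Or.inr ⟨m', hm', Or.inr (Or.inl ⟨i + 1, by omega, h.2⟩)⟩
    · exact Or.inr ⟨m', hm', Or.inr (Or.inr h)⟩
  · obtain ⟨h1, h2⟩ := dd_fam hr
    exact ⟨h1, fun m hm => Or.inl (h2 m hm)⟩

theorem first4 {a : ℕ} (ha : 4 ≤ a) : FirstWins a 4 :=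
  first_of_fam (fam4 ha) 0 (Or.inl ⟨0, rfl⟩)

end Pool.Agent.KS6_98.ESG
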